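import Pool.Agent.Helper40.MR.Defs

/-!
# NT: the final number theoretic statement
-/

open Finset MeasureTheory
open scoped BigOperators Nat

namespace Pool.Agent.Helper40.MR

open Classical in
/-- the finite set of the integers in `(X, 2X]` with the property `A` -/
noncomputable def nt_F (X : ℝ) (A : ℕ → Prop) : Finset ℕ :=
  (Finset.Icc 0 ⌊2 * X⌋₊).filter (fun n : ℕ => X < n ∧ A n)

theorem nt_mem (X : ℝ) (hX : 0 ≤ X) (A : ℕ → Prop) (n : ℕ) :
    n ∈ nt_F X A ↔ (X < n ∧ (n : ℝ) ≤ 2 * X ∧ A n) := by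
  classical
  unfold nt_F
  rw [Finset.mem_filter, Finset.mem_Icc, Nat.le_floor_iff (by linarith)]
  constructor
  · rintro ⟨⟨_, h1⟩, h2, h3⟩
    exact ⟨h2, h1, h3⟩
  · rintro ⟨h2, h1, h3⟩
    exact ⟨⟨Nat.zero_le _, h1⟩, h2, h3⟩

theorem nt_card (X : ℝ) (hX : 0 ≤ X) (A : ℕ → Prop) :
    Nat.card {n : ℕ // X < n ∧ (n : ℝ) ≤ 2 * X ∧ A n} = (nt_F X A).card :=
  Nat.subtype_card _ fun n => nt_mem X hX A n

theorem nt_union (X : ℝ) (hX : 0 ≤ X) (J : ℕ) (A : ℕ → ℕ → Prop) (B s : ℕ → Prop)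
    (h : ∀ n, ¬ s n → (∃ j ∈ range (J + 1), A j n) ∨ B n) :
    (Nat.card {n : ℕ // X < n ∧ (n : ℝ) ≤ 2 * X ∧ ¬ s n} : ℝ) ≤
      ∑ j ∈ range (J + 1), (Nat.card {n : ℕ // X < n ∧ (n : ℝ) ≤ 2 * X ∧ A j n} : ℝ) +
        (Nat.card {n : ℕ // X < n ∧ (n : ℝ) ≤ 2 * X ∧ B n} : ℝ) := by
  classical
  have key : Nat.card {n : ℕ // X < n ∧ (n : ℝ) ≤ 2 * X ∧ ¬ s n} ≤
      ∑ j ∈ range (J + 1), Nat.card {n : ℕ // X < n ∧ (n : ℝ) ≤ 2 * X ∧ A j n} +
        Nat.card {n : ℕ // X < n ∧ (n : ℝ) ≤ 2 * X ∧ B n} := by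
    rw [nt_card X hX (fun n => ¬ s n), nt_card X hX B, Finset.sum_congr rfl fun j _ => nt_card X hX (A j)]
    have hsub : nt_F X (fun n => ¬ s n) ⊆ (range (J + 1)).biUnion (fun j => nt_F X (A j)) ∪ nt_F X B := by
      intro n hn
      rw [nt_mem X hX] at hn
      rw [Finset.mem_union, Finset.mem_biUnion]
      rcases h n hn.2.2 with ⟨j, hj, hA⟩ | hB
      · exact Or.inl ⟨j, hj, (nt_mem X hX _ n).2 ⟨hn.1, hn.2.1, hA⟩⟩
      · exact Or.inr ((nt_mem X hX _ n).2 ⟨hn.1, hn.2.1, hB⟩)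
    have h1 := Finset.card_le_card hsub
    have h2 := Finset.card_union_le ((range (J + 1)).biUnion (fun j => nt_F X (A j))) (nt_F X B)
    have h3 : ((range (J + 1)).biUnion (fun j => nt_F X (A j))).card ≤ ∑ j ∈ range (J + 1), (nt_F X (A j)).card :=
      Finset.card_biUnion_le
    omega
  exact_mod_cast key

theorem nt_geom (n : ℕ) : ∑ j ∈ range n, (1 / 20 : ℝ) ^ j ≤ 20 / 19 * (1 - (1 / 20 : ℝ) ^ n) := by
  induction n with
  | zero => simp
  | succ n ih =>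
    rw [Finset.sum_range_succ, pow_succ]
    linarith

/-- one density bound: from `c * l ≤ C X` and `l ≥ m 4C/ε` -/
theorem nt_one {c l m C ε X : ℝ} (hc : 0 ≤ c) (hC : 0 < C) (hε : 0 < ε) (hm : 0 < m) (h1 : c * l ≤ C * X)
    (h2 : m * (4 * C / ε) ≤ l) : c ≤ ε / 4 * X * (1 / m) := by
  have h3 : c * (m * (4 * C / ε)) ≤ C * X := (mul_le_mul_of_nonneg_left h2 hc).trans h1
  have h4 : c * m * 4 ≤ ε * X := by
    have e : c * (m * (4 * C / ε)) = c * m * 4 * (C / ε) := by ring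
    have e2 : C * X = ε * X * (C / ε) := by
      field_simp
    rw [e, e2] at h3
    exact le_of_mul_le_mul_right h3 (by positivity)
  rw [mul_one_div, le_div_iff₀ hm]
  linarith

theorem st_NT (hMU : ST_MU) (hDENS : ST_DENS) (hPB : ST_PB) : ST_NT := by
  intro ε hε hε1
  obtain ⟨C, hC, hD⟩ := hDENS
  set K : ℝ := max 2 (Real.exp (4 * C / ε)) with hK
  have hK2 : 2 ≤ K := le_max_left _ _
  have hKe : Real.exp (4 * C / ε) ≤ K := le_max_right _ _
  have hKpos : 0 < K := by linarith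
  have hlogK : 4 * C / ε ≤ Real.log K := by
    rw [Real.le_log_iff_exp_le hKpos]
    exact hKe
  set θ₁ : ℝ := 1 / (4 * K) with hθ1
  have hθ1pos : 0 < θ₁ := by positivity
  have hθ12 : θ₁ < 1 / 4 := by
    rw [hθ1]
    apply one_div_lt_one_div_of_lt (by norm_num)
    linarith
  obtain ⟨κ, hκ, L1, hL1⟩ := hMU K θ₁ (1 / 4) hK2 hθ1pos hθ12 le_rfl
  refine ⟨κ, hκ, max L1 (max ⌈Real.exp (4 * K ^ 2)⌉₊ ⌈(1 / ε) ^ (1 / κ)⌉₊), fun L hL => ?_⟩
  have hLL1 : L1 ≤ L := (le_max_left _ _).trans hL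
  have hLexp : Real.exp (4 * K ^ 2) ≤ L :=
    (Nat.le_ceil _).trans (by exact_mod_cast ((le_max_left _ _).trans ((le_max_right _ _).trans hL)))
  have hLe : (1 / ε) ^ (1 / κ) ≤ L :=
    (Nat.le_ceil _).trans (by exact_mod_cast ((le_max_right _ _).trans ((le_max_right _ _).trans hL)))
  have hLpos : (0 : ℝ) < L := (Real.exp_pos _).trans_le hLexp
  set y : ℝ := Real.log L / (4 * K) with hy
  have hyK : K ≤ y := by
    rw [hy, le_div_iff₀ (by positivity)]
    have : 4 * K ^ 2 ≤ Real.log L := by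
      rw [Real.le_log_iff_exp_le hLpos]
      exact hLexp
    have e : K * (4 * K) = 4 * K ^ 2 := by ring
    rw [e]
    exact this
  have hy2 : 2 ≤ y := hK2.trans hyK
  have hy0 : 0 < y := by linarith
  have hlogy : 4 * C / ε ≤ Real.log y := hlogK.trans (Real.log_le_log hKpos hyK)
  obtain ⟨Z1, hZ1⟩ := hL1 L hLL1
  rw [← hy] at hZ1
  obtain ⟨Z2, hZ2⟩ := hPB K (1 / 4) y (1 / 4) 1 hK2 (by norm_num) le_rfl hy2 (by norm_num) one_pos
  refine ⟨max (max Z1 Z2) (max (max 1 (2 ^ (1 / θ₁))) ((1 / ε) ^ 2)), fun Z hZ => ?_⟩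
  have hZZ1 : Z1 ≤ Z := ((le_max_left _ _).trans (le_max_left _ _)).trans hZ
  have hZZ2 : Z2 ≤ Z := ((le_max_right _ _).trans (le_max_left _ _)).trans hZ
  have hZone : 1 ≤ Z := (((le_max_left _ _).trans (le_max_left _ _)).trans (le_max_right _ _)).trans hZ
  have hZtwo : 2 ^ (1 / θ₁) ≤ Z := (((le_max_right _ _).trans (le_max_left _ _)).trans (le_max_right _ _)).trans hZ
  have hZe : (1 / ε) ^ 2 ≤ Z := ((le_max_right _ _).trans (le_max_right _ _)).trans hZ
  have hZpos : 0 < Z := by linarith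
  obtain ⟨_, hQ, _, _⟩ := hZ2 Z hZZ2
  refine ⟨SS K y θ₁ (1 / 4) Z, fun X hX1 hX2 => ⟨?_, ?_⟩⟩
  · have hXpos : 0 < X := (mul_pos hε hZpos).trans_le hX1
    -- (Z^(1/4))^2 ≤ X
    have hsq : (Z ^ (1 / 4 : ℝ)) ^ 2 ≤ X := by
      have e1 : (Z ^ (1 / 4 : ℝ)) ^ 2 = Real.sqrt Z := by
        rw [Real.sqrt_eq_rpow, ← Real.rpow_natCast, ← Real.rpow_mul hZpos.le]
        norm_num
      rw [e1]
      have h1 : 1 / ε ≤ Real.sqrt Z := Real.le_sqrt_of_sq_le hZe
      have h2 : 1 ≤ ε * Real.sqrt Z := by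
        rw [div_le_iff₀ hε] at h1
        linarith
      have h3 : Real.sqrt Z * Real.sqrt Z = Z := Real.mul_self_sqrt hZpos.le
      have h4 : 0 ≤ Real.sqrt Z := Real.sqrt_nonneg Z
      calc Real.sqrt Z = 1 * Real.sqrt Z := (one_mul _).symm
        _ ≤ (ε * Real.sqrt Z) * Real.sqrt Z := mul_le_mul_of_nonneg_right h2 h4
        _ = ε * Z := by rw [mul_assoc, h3]
        _ ≤ X := hX1
    have hU := nt_union X hXpos.le (Jz y Z) (fun j n => ¬ Hit (Psc y j) (Qsc K y j) n)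
      (fun n => ¬ Hit (Z ^ θ₁) (Z ^ (1 / 4 : ℝ)) n) (SS K y θ₁ (1 / 4) Z) (by
        intro n hn
        unfold SS at hn
        by_cases hB : Hit (Z ^ θ₁) (Z ^ (1 / 4 : ℝ)) n
        · left
          by_contra hcon
          push Not at hcon
          exact hn ⟨hcon, hB⟩
        · exact Or.inr hB)
    refine hU.trans ?_
    -- the scales
    have hterm : ∀ j ∈ range (Jz y Z + 1),
        (Nat.card {n : ℕ // X < n ∧ (n : ℝ) ≤ 2 * X ∧ ¬ Hit (Psc y j) (Qsc K y j) n} : ℝ) ≤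
          ε / 4 * X * (1 / 20 : ℝ) ^ j := by
      intro j hj
      have hjJ : j ≤ Jz y Z := Nat.lt_succ_iff.1 (Finset.mem_range.1 hj)
      have hpow1 : (1 : ℝ) ≤ y ^ (20 ^ j) := one_le_pow₀ (by linarith)
      have hP2 : 2 ≤ Psc y j := by
        unfold Psc
        have h1 : Real.exp 1 ≤ Real.exp (y ^ (20 ^ j)) := Real.exp_le_exp.2 hpow1
        have h2 : (2 : ℝ) ≤ Real.exp 1 := by
          have := Real.add_one_le_exp (1 : ℝ)
          linarith
        linarith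
      have hQpos : 0 ≤ Qsc K y j := by
        unfold Qsc
        split_ifs
        · exact (Real.exp_pos _).le
        · exact (Real.exp_pos _).le
      have hQX : (Qsc K y j) ^ 2 ≤ X := (pow_le_pow_left₀ hQpos (hQ j hjJ) 2).trans hsq
      have hPQ : Psc y j < Qsc K y j ∧ (20 : ℝ) ^ j * (4 * C / ε) ≤
          Real.log (Real.log (Qsc K y j) / Real.log (Psc y j)) := by
        unfold Psc Qsc
        rcases Nat.eq_zero_or_pos j with h0 | hjpos
        · subst h0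
          simp only [pow_zero, pow_one, if_true, one_mul]
          refine ⟨Real.exp_lt_exp.2 (lt_mul_of_one_lt_left hy0 (by linarith)), ?_⟩
          rw [Real.log_exp, Real.log_exp, mul_div_cancel_right₀ K hy0.ne']
          exact hlogK
        · rw [if_neg hjpos.ne']
          constructor
          · apply Real.exp_lt_exp.2
            have h20 : 0 < 20 ^ j := pow_pos (show (0 : ℕ) < 20 by norm_num) j
            exact pow_lt_pow_right₀ (by linarith) (by omega)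
          · have hpos : (0 : ℝ) < y ^ (20 ^ j) := by positivity
            rw [Real.log_exp, Real.log_exp, two_mul, pow_add, mul_div_cancel_right₀ _ hpos.ne', Real.log_pow]
            push_cast
            exact mul_le_mul_of_nonneg_left hlogy (by positivity)
      have hd := hD (Psc y j) (Qsc K y j) X hP2 hPQ.1 hQX
      have := nt_one (Nat.cast_nonneg _) hC hε (by positivity : (0 : ℝ) < 20 ^ j) hd hPQ.2
      rw [one_div_pow]
      exact this
    have hlast : (Nat.card {n : ℕ // X < n ∧ (n : ℝ) ≤ 2 * X ∧ ¬ Hit (Z ^ θ₁) (Z ^ (1 / 4 : ℝ)) n} : ℝ) ≤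
        ε / 4 * X := by
      have hP2 : 2 ≤ Z ^ θ₁ := by
        have h1 := Real.rpow_le_rpow (by positivity) hZtwo hθ1pos.le
        rw [← Real.rpow_mul (by norm_num), one_div_mul_cancel hθ1pos.ne', Real.rpow_one] at h1
        exact h1
      have hZ1' : 1 < Z := by
        by_contra h
        have : Z = 1 := le_antisymm (not_lt.1 h) hZone
        rw [this, Real.one_rpow] at hP2
        linarith
      have hlZ : 0 < Real.log Z := Real.log_pos hZ1'
      have hPQ : Z ^ θ₁ < Z ^ (1 / 4 : ℝ) := Real.rpow_lt_rpow_of_exponent_lt hZ1' hθ12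
      have hd := hD (Z ^ θ₁) (Z ^ (1 / 4 : ℝ)) X hP2 hPQ hsq
      have hr : Real.log (Z ^ (1 / 4 : ℝ)) / Real.log (Z ^ θ₁) = K := by
        rw [Real.log_rpow hZpos, Real.log_rpow hZpos, mul_div_mul_right _ _ hlZ.ne', hθ1]
        field_simp
      rw [hr] at hd
      have := nt_one (Nat.cast_nonneg _) hC hε one_pos hd (by rw [one_mul]; exact hlogK)
      rw [one_div_one, mul_one] at this
      exact this
    have hsum := Finset.sum_le_sum hterm
    rw [← Finset.mul_sum] at hsum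
    have hg := nt_geom (Jz y Z + 1)
    have hg2 : ∑ j ∈ range (Jz y Z + 1), (1 / 20 : ℝ) ^ j ≤ 2 := by
      have : (0 : ℝ) ≤ (1 / 20 : ℝ) ^ (Jz y Z + 1) := by positivity
      linarith
    have hεX : 0 < ε * X := mul_pos hε hXpos
    have : ε / 4 * X * ∑ j ∈ range (Jz y Z + 1), (1 / 20 : ℝ) ^ j ≤ ε / 4 * X * 2 :=
      mul_le_mul_of_nonneg_left hg2 (by positivity)
    have e : ε / 4 * X * 2 + ε / 4 * X = 3 / 4 * (ε * X) := by ring
    linarith
  · intro c hc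
    refine hZ1 Z X c hZZ1 ?_ hX2 hc
    refine le_trans ?_ hX1
    have h1 : 1 / ε ≤ (L : ℝ) ^ κ := by
      have h2 := Real.rpow_le_rpow (by positivity) hLe hκ.le
      rw [← Real.rpow_mul (by positivity), one_div_mul_cancel hκ.ne', Real.rpow_one] at h2
      exact h2
    have hLκ : 0 < (L : ℝ) ^ κ := Real.rpow_pos_of_pos hLpos κ
    rw [div_le_iff₀ hLκ]
    rw [div_le_iff₀ hε] at h1
    calc Z = 1 * Z := (one_mul Z).symm
      _ ≤ ((L : ℝ) ^ κ * ε) * Z := mul_le_mul_of_nonneg_right h1 hZpos.le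
      _ = ε * Z * (L : ℝ) ^ κ := by ring

end Pool.Agent.Helper40.MR
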